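import Mathlib
import Pool.Agent.R237.Discs
import Pool.Agent.Results.MP_215127_an.ChordalMergelyan

/-! The chordal Mergelyan property for disjoint closed discs converging to a point. -/

set_option autoImplicit false

open Filter Topology Set Metric
open scoped OnePoint

namespace Pool.Agent.Results.MP_1b82cc_an.DiscsToPoint

open Pool.Agent.Results.MP_215127_an.ChordalMergelyan

/-- The chordal Mergelyan property of `L`: the maps `L → ℂ ∪ {∞}` that are limits, uniform on `L`
in the chordal metric, of polynomials are exactly the continuous maps that on every connected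
component of the interior of `L` are either identically `∞` or finite-valued and holomorphic. -/
def ChordalMergelyanProperty (L : Set ℂ) : Prop := PolyLimits L = ClassM L

/-- Let `D_n` be pairwise disjoint closed discs of positive radius with `sup_{z ∈ D_n} |z - P| → 0`
and `L = {P} ∪ ⋃ D_n`. Then `L` has the chordal Mergelyan property. -/
theorem result (P : ℂ) (D : ℕ → Set ℂ)
    (hdisc : ∀ n, ∃ (c : ℂ) (r : ℝ), 0 < r ∧ D n = closedBall c r)
    (hdisj : ∀ n m, n ≠ m → Disjoint (D n) (D m))
    (hconv : ∀ ε : ℝ, 0 < ε → ∃ N : ℕ, ∀ n ≥ N, ∀ z ∈ D n, ‖z - P‖ < ε) :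
    ChordalMergelyanProperty ({P} ∪ ⋃ n, D n) := by
  choose c r hr hD using hdisc
  have hDe : D = fun n => closedBall (c n) (r n) := funext hD
  subst hDe
  have e : ({P} ∪ ⋃ n, closedBall (c n) (r n) : Set ℂ) = insert P (⋃ n, closedBall (c n) (r n)) := by
    rw [insert_eq]
  unfold ChordalMergelyanProperty
  rw [e]
  exact Pool.Agent.Results.MP_215127_an.ChordalMergelyan.result _
    (Pool.Agent.R237.Discs.compact_all c r P hconv)
    (Pool.Agent.R237.Discs.connected_compl c r hr P hdisj hconv)

end Pool.Agent.Results.MP_1b82cc_an.DiscsToPoint
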